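import Mathlib

/-!
Project PI (helper84's paper, section 4): Step 2 of Lemma 4 and Corollary 5, in a form without
localisations.
-/

namespace Pool.Agent.MP_43d240_ag.H36

open Matrix IsLocalRing

section Dom

variable {O : Type*} [CommRing O] [IsDomain O]

theorem eq_zero_of_mul {n m : Type*} [Fintype n] [DecidableEq n] (X : Matrix n n O)
    (hX : X.det ≠ 0) (Y : Matrix n m O) (h : X * Y = 0) : Y = 0 := by
  have h1 : X.adjugate * (X * Y) = X.det • Y := by
    rw [← Matrix.mul_assoc, adjugate_mul, smul_mul, Matrix.one_mul]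
  rw [h, Matrix.mul_zero] at h1
  ext i j
  have h2 := congrFun (congrFun h1 i) j
  simp only [Matrix.zero_apply, Matrix.smul_apply, smul_eq_mul] at h2
  rcases mul_eq_zero.mp h2.symm with h3 | h3
  · exact absurd h3 hX
  · exact h3

theorem eq_zero_of_mul' {n m : Type*} [Fintype n] [DecidableEq n] (X : Matrix n n O)
    (hX : X.det ≠ 0) (Y : Matrix m n O) (h : Y * X = 0) : Y = 0 := by
  have h1 : Yᵀ = 0 := by
    apply eq_zero_of_mul Xᵀ (by rwa [det_transpose])
    rw [← Matrix.transpose_mul, h, Matrix.transpose_zero]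
  rw [← Matrix.transpose_transpose Y, h1, Matrix.transpose_zero]

variable {ι : Type*} [Fintype ι] [DecidableEq ι]

/-- kernel lemma -/
theorem kernel_lemma (A : Matrix (Fin 2) (Fin 2) O) (H U : Matrix ι ι O) (hH : H.det ≠ 0)
    (M : Matrix (Fin 2) (Fin 2) O) (B : Matrix (Fin 2) ι O) (C : Matrix ι (Fin 2) O)
    (E : Matrix ι ι O) (hQ : (fromBlocks M B C E).det ≠ 0)
    (h : (fromBlocks M B C E)ᵀ * fromBlocks A 0 0 H * fromBlocks M B C E = fromBlocks 0 0 0 U) :
    C = 0 ∧ A = 0 ∧ M.det ≠ 0 := by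
  -- the first two columns
  have h1 : (fromBlocks M B C E)ᵀ *
      (fromBlocks A 0 0 H * fromBlocks M (0 : Matrix (Fin 2) ι O) C (0 : Matrix ι ι O)) = 0 := by
    have e1 : fromBlocks M (0 : Matrix (Fin 2) ι O) C (0 : Matrix ι ι O)
        = fromBlocks M B C E * fromBlocks 1 0 0 0 := by
      rw [fromBlocks_multiply]; simp
    rw [e1, ← Matrix.mul_assoc, ← Matrix.mul_assoc, h, fromBlocks_multiply]
    simp
  have h2 := eq_zero_of_mul _ (by rwa [det_transpose]) _ h1
  rw [fromBlocks_multiply] at h2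
  have h3 : A * M = 0 := by
    have := congrArg toBlocks₁₁ h2
    rw [toBlocks_fromBlocks₁₁, Matrix.zero_mul, add_zero] at this
    exact this
  have h4 : H * C = 0 := by
    have := congrArg toBlocks₂₁ h2
    rw [toBlocks_fromBlocks₂₁, Matrix.zero_mul, zero_add] at this
    exact this
  have hC : C = 0 := eq_zero_of_mul H hH C h4
  subst hC
  rw [det_fromBlocks_zero₂₁] at hQ
  have hM : M.det ≠ 0 := fun h => hQ (by rw [h, zero_mul])
  exact ⟨rfl, eq_zero_of_mul' M hM A h3, hM⟩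

end Dom

section Quot

variable {R : Type*} [CommRing R]

theorem quot_dom [IsDomain R] {Z : R} (hZ : Prime Z) : IsDomain (R ⧸ Ideal.span {Z}) :=
  (Ideal.Quotient.isDomain_iff_prime _).mpr ((Ideal.span_singleton_prime hZ.ne_zero).mpr hZ)

/-- a matrix which vanishes modulo `Z` is `Z` times a matrix -/
theorem exists_smul {Z : R} {m n : Type*} (A : Matrix m n R)
    (h : A.map (Ideal.Quotient.mk (Ideal.span {Z})) = 0) : ∃ B : Matrix m n R, A = Z • B := by
  have h1 : ∀ i j, ∃ b, A i j = Z * b := by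
    intro i j
    have := congrFun (congrFun h i) j
    rw [Matrix.map_apply, Matrix.zero_apply, Ideal.Quotient.eq_zero_iff_dvd] at this
    exact this
  choose B hB using h1
  refine ⟨Matrix.of B, ?_⟩
  ext i j
  rw [hB i j]; rfl

theorem det_map_ne {Z : R} {n : Type*} [Fintype n] [DecidableEq n] (A : Matrix n n R)
    (h : ¬ Z ∣ A.det) : (A.map (Ideal.Quotient.mk (Ideal.span {Z}))).det ≠ 0 := by
  have := RingHom.map_det (Ideal.Quotient.mk (Ideal.span {Z})) A
  rw [RingHom.mapMatrix_apply] at this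
  rw [← this, Ne, Ideal.Quotient.eq_zero_iff_dvd]
  exact h

theorem map_smul_zero {Z : R} {m n : Type*} (X : Matrix m n R) :
    (Z • X).map (Ideal.Quotient.mk (Ideal.span {Z})) = 0 := by
  have hmkZ : Ideal.Quotient.mk (Ideal.span {Z}) Z = 0 := by
    rw [Ideal.Quotient.eq_zero_iff_dvd]
  ext i j
  simp [hmkZ]

variable {ι : Type*} [Fintype ι] [DecidableEq ι]

/-- The residue form at `Z` in a basis adapted to the kernel. -/
theorem adapted [IsDomain R] {Z : R} (hZ : Prime Z) (A1 : Matrix (Fin 2) (Fin 2) R)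
    (A2 : Matrix (Fin 2) ι R) (H U : Matrix ι ι R) (hH : ¬ Z ∣ H.det)
    (Q : Matrix (Fin 2 ⊕ ι) (Fin 2 ⊕ ι) R) (hQ : ¬ Z ∣ Q.det) (W : Matrix (Fin 2) (Fin 2) R)
    (h : Qᵀ * fromBlocks (Z • A1) (Z • A2) (Z • A2ᵀ) H * Q = fromBlocks (Z • W) 0 0 U) :
    ∃ M N : Matrix (Fin 2) (Fin 2) R, W = Mᵀ * A1 * M + Z • N := by
  have := quot_dom hZ
  set mk := Ideal.Quotient.mk (Ideal.span {Z}) with hmk
  have hmkZ : mk Z = 0 := by rw [hmk, Ideal.Quotient.eq_zero_iff_dvd]
  obtain ⟨M, B, C, E, rfl⟩ : ∃ M B C E, Q = fromBlocks M B C E :=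
    ⟨_, _, _, _, (fromBlocks_toBlocks Q).symm⟩
  have h1 : (fromBlocks (M.map mk) (B.map mk) (C.map mk) (E.map mk))ᵀ *
      fromBlocks 0 0 0 (H.map mk) * fromBlocks (M.map mk) (B.map mk) (C.map mk) (E.map mk)
      = fromBlocks 0 0 0 (U.map mk) := by
    have h2 := congrArg (fun X => X.map mk) h
    simp only [Matrix.map_mul, fromBlocks_map] at h2
    rw [Matrix.map_zero _ (map_zero mk), Matrix.map_zero _ (map_zero mk), map_smul_zero, map_smul_zero,
      map_smul_zero, map_smul_zero, Matrix.transpose_map, fromBlocks_map] at h2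
    exact h2
  have hdQ : (fromBlocks (M.map mk) (B.map mk) (C.map mk) (E.map mk)).det ≠ 0 := by
    have := det_map_ne _ hQ
    rwa [fromBlocks_map] at this
  obtain ⟨hC, -, -⟩ := kernel_lemma 0 _ _ (det_map_ne _ hH) _ _ _ _ hdQ h1
  obtain ⟨C', rfl⟩ := exists_smul C hC
  have h3 := congrArg toBlocks₁₁ h
  rw [fromBlocks_transpose, fromBlocks_multiply, fromBlocks_multiply, toBlocks_fromBlocks₁₁,
    toBlocks_fromBlocks₁₁] at h3
  refine ⟨M, -(-(Mᵀ * A2 * C') - C'ᵀ * A2ᵀ * M - C'ᵀ * H * C'), ?_⟩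
  have h4 : Z • W = Z • (Mᵀ * A1 * M + Z • -(-(Mᵀ * A2 * C') - C'ᵀ * A2ᵀ * M - C'ᵀ * H * C')) := by
    rw [← h3]
    simp only [Matrix.transpose_smul, Matrix.smul_mul, Matrix.mul_smul, Matrix.add_mul,
      smul_add, smul_neg, smul_sub, Matrix.mul_assoc, smul_smul, neg_sub]
    abel
  ext i j
  have h5 := congrFun (congrFun h4 i) j
  rw [Matrix.smul_apply, Matrix.smul_apply, smul_eq_mul, smul_eq_mul] at h5
  exact mul_left_cancel₀ hZ.ne_zero h5

end Quot

end Pool.Agent.MP_43d240_ag.H36
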