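import Mathlib
import Pool.Agent.Lib.MP_43d240_ag.H36.LocalLemma

/-!
Project PI (helper84's paper, section 4): a basis adapted to the kernel of a symmetric matrix over a
principal ideal domain.
-/

namespace Pool.Agent.MP_43d240_ag.H36

open Matrix

variable {O : Type*} [CommRing O] [IsDomain O] [IsPrincipalIdealRing O]
variable {ι : Type*} [Fintype ι] [DecidableEq ι]

theorem exists_adapted (A : Matrix (Fin 2 ⊕ ι) (Fin 2 ⊕ ι) O) (hA : Aᵀ = A)
    (Q : Matrix (Fin 2 ⊕ ι) (Fin 2 ⊕ ι) O) (hQ : Q.det ≠ 0) (U : Matrix ι ι O) (hU : U.det ≠ 0)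
    (h : Qᵀ * A * Q = fromBlocks 0 0 0 U) :
    ∃ (P : Matrix (Fin 2 ⊕ ι) (Fin 2 ⊕ ι) O) (H : Matrix ι ι O), IsUnit P.det ∧ H.det ≠ 0 ∧
      Pᵀ * A * P = fromBlocks 0 0 0 H := by
  classical
  set M := (Fin 2 ⊕ ι) → O with hM
  set f : M →ₗ[O] M := A.mulVecLin with hf
  set N := LinearMap.ker f with hN
  set Rg := LinearMap.range f with hRg
  -- `Q` injective on vectors
  have hinj : ∀ (X : Matrix (Fin 2 ⊕ ι) (Fin 2 ⊕ ι) O), X.det ≠ 0 → ∀ v, X *ᵥ v = 0 → v = 0 := by
    intro X hX v hv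
    by_contra hne
    exact hX (Matrix.exists_mulVec_eq_zero_iff.mp ⟨v, hne, hv⟩)
  have hinjU : ∀ v, U *ᵥ v = 0 → v = 0 := by
    intro v hv
    by_contra hne
    exact hU (Matrix.exists_mulVec_eq_zero_iff.mp ⟨v, hne, hv⟩)
  have hadj : ∀ x, Q *ᵥ (Q.adjugate *ᵥ x) = Q.det • x := by
    intro x
    rw [mulVec_mulVec, mul_adjugate, smul_mulVec, one_mulVec]
  -- the key relation
  have hkey : ∀ y : M, Qᵀ *ᵥ (A *ᵥ (Q *ᵥ y)) = Sum.elim (0 : Fin 2 → O) (U *ᵥ (y ∘ Sum.inr)) := by
    intro y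
    rw [mulVec_mulVec, mulVec_mulVec, h, fromBlocks_mulVec]
    simp
  -- rank of the kernel
  have hNle : Module.finrank O N ≤ 2 := by
    let g : N →ₗ[O] (Fin 2 → O) :=
      (LinearMap.funLeft O O Sum.inl) ∘ₗ (Q.adjugate.mulVecLin) ∘ₗ N.subtype
    have hg : Function.Injective g := by
      rw [← LinearMap.ker_eq_bot, LinearMap.ker_eq_bot']
      rintro ⟨x, hx⟩ hgx
      have hx' : A *ᵥ x = 0 := hx
      have h1 : (Q.adjugate *ᵥ x) ∘ Sum.inl = 0 := hgx
      have h2 := hkey (Q.adjugate *ᵥ x)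
      rw [hadj, mulVec_smul, hx', smul_zero, mulVec_zero] at h2
      have h3 : U *ᵥ ((Q.adjugate *ᵥ x) ∘ Sum.inr) = 0 := by
        ext i
        have := congrFun h2 (Sum.inr i)
        simpa using this.symm
      have h4 := hinjU _ h3
      have h5 : Q.adjugate *ᵥ x = 0 := by
        ext i
        rcases i with i | i
        · exact congrFun h1 i
        · exact congrFun h4 i
      have h6 := hadj x
      rw [h5, mulVec_zero] at h6
      apply Subtype.ext
      show x = 0
      rcases smul_eq_zero.mp h6.symm with h7 | h7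
      · exact absurd h7 hQ
      · exact h7
    have := LinearMap.finrank_le_finrank_of_injective hg
    simpa using this
  have hRle : Module.finrank O Rg ≤ Fintype.card ι := by
    let g : Rg →ₗ[O] (ι → O) :=
      (LinearMap.funLeft O O Sum.inr) ∘ₗ (Qᵀ.mulVecLin) ∘ₗ Rg.subtype
    have hg : Function.Injective g := by
      rw [← LinearMap.ker_eq_bot, LinearMap.ker_eq_bot']
      rintro ⟨z, ⟨x, hx⟩⟩ hgx
      have hx' : A *ᵥ x = z := hx
      have h1 : (Qᵀ *ᵥ z) ∘ Sum.inr = 0 := hgx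
      have h2 := hkey (Q.adjugate *ᵥ x)
      rw [hadj, mulVec_smul, hx', mulVec_smul] at h2
      have h3 : (Qᵀ *ᵥ z) = 0 := by
        ext i
        rcases i with i | i
        · have := congrFun h2 (Sum.inl i)
          simp only [Pi.smul_apply, smul_eq_mul, Sum.elim_inl, Pi.zero_apply] at this
          rcases mul_eq_zero.mp this with h7 | h7
          · exact absurd h7 hQ
          · exact h7
        · exact congrFun h1 i
      apply Subtype.ext
      exact hinj Qᵀ (by rwa [det_transpose]) _ h3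
    have := LinearMap.finrank_le_finrank_of_injective hg
    simpa using this
  -- splitting
  have : Module.Free O Rg := Module.free_of_finite_type_torsion_free'
  have : Module.Free O N := Module.free_of_finite_type_torsion_free'
  obtain ⟨s, hs⟩ := Module.projective_lifting_property f.rangeRestrict (LinearMap.id (R := O) (M := Rg))
    f.surjective_rangeRestrict
  have hs' : ∀ r : Rg, f (s r) = r := by
    intro r
    have := congrArg (fun g => ((g r : Rg) : M)) hs
    exact this
  let E : (N × Rg) →ₗ[O] M := N.subtype.coprod s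
  have hE : Function.Bijective E := by
    constructor
    · rw [← LinearMap.ker_eq_bot, LinearMap.ker_eq_bot']
      rintro ⟨n, r⟩ hnr
      have h1 : (n : M) + s r = 0 := hnr
      have h2 : f ((n : M) + s r) = 0 := by rw [h1, map_zero]
      have hn : f (n : M) = 0 := n.2
      rw [map_add, hn, zero_add, hs'] at h2
      have hr : r = 0 := Subtype.ext h2
      rw [hr, map_zero, add_zero] at h1
      have hn0 : n = 0 := Subtype.ext h1
      rw [hr, hn0]; rfl
    · intro m
      have h1 : m - s (f.rangeRestrict m) ∈ N := by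
        rw [hN, LinearMap.mem_ker, map_sub, hs']
        simp
      exact ⟨(⟨_, h1⟩, f.rangeRestrict m), by
        show (m - s (f.rangeRestrict m)) + s (f.rangeRestrict m) = m
        abel⟩
  let e : (N × Rg) ≃ₗ[O] M := LinearEquiv.ofBijective E hE
  have hsum : Module.finrank O N + Module.finrank O Rg = 2 + Fintype.card ι := by
    rw [← Module.finrank_prod, e.finrank_eq]
    have hfin : Module.finrank O (Fin 2 ⊕ ι → O) = 2 + Fintype.card ι := by
      rw [Module.finrank_fintype_fun_eq_card]; simp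
    exact hfin
  have hN2 : Module.finrank O N = 2 := by omega
  have hR2 : Module.finrank O Rg = Fintype.card ι := by omega
  let bN : Module.Basis (Fin 2) O N := Module.finBasisOfFinrankEq O N hN2
  let bR : Module.Basis ι O Rg :=
    (Module.finBasisOfFinrankEq O Rg hR2).reindex (Fintype.equivFin ι).symm
  let b : Module.Basis (Fin 2 ⊕ ι) O M := (bN.prod bR).map e
  let P : Matrix (Fin 2 ⊕ ι) (Fin 2 ⊕ ι) O := (Pi.basisFun O (Fin 2 ⊕ ι)).toMatrix b
  have hP : IsUnit P.det := by
    have : Invertible P := (Pi.basisFun O (Fin 2 ⊕ ι)).invertibleToMatrix b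
    exact isUnit_det_of_invertible P
  have hPcol : ∀ j, P.col j = b j := by
    intro j
    ext i
    rfl
  have hbN : ∀ j : Fin 2, A *ᵥ (b (Sum.inl j)) = 0 := by
    intro j
    have h1 : b (Sum.inl j) = (bN j : M) := by
      have h2 : (bN.prod bR) (Sum.inl j) = (bN j, 0) := Prod.ext (by simp) (by simp)
      show e ((bN.prod bR) (Sum.inl j)) = _
      rw [h2]
      show (bN j : M) + s 0 = _
      rw [map_zero, add_zero]
    rw [h1]
    exact (bN j).2
  have hAP : ∀ (i : Fin 2 ⊕ ι) (j : Fin 2), (A * P) i (Sum.inl j) = 0 := by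
    intro i j
    have := congrFun (hbN j) i
    rw [← hPcol] at this
    exact this
  have hPAP : ∀ (i : Fin 2 ⊕ ι) (j : Fin 2), (Pᵀ * A * P) i (Sum.inl j) = 0 := by
    intro i j
    rw [Matrix.mul_assoc, Matrix.mul_apply]
    exact Finset.sum_eq_zero fun k _ => by rw [hAP, mul_zero]
  have hsym : (Pᵀ * A * P)ᵀ = Pᵀ * A * P := by
    rw [transpose_mul, transpose_mul, transpose_transpose, hA, Matrix.mul_assoc]
  have hblk : Pᵀ * A * P = fromBlocks 0 0 0 (Pᵀ * A * P).toBlocks₂₂ := by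
    ext i j
    rcases j with j | j
    · rw [hPAP]
      rcases i with i | i <;> simp
    · rcases i with i | i
      · rw [← hsym, transpose_apply, hPAP]; simp
      · rfl
  refine ⟨P, (Pᵀ * A * P).toBlocks₂₂, hP, ?_, hblk⟩
  -- the determinant of `H`
  set H := (Pᵀ * A * P).toBlocks₂₂ with hH
  obtain ⟨T11, T12, T21, T22, hT⟩ : ∃ T11 T12 T21 T22, P⁻¹ * Q = fromBlocks T11 T12 T21 T22 :=
    ⟨_, _, _, _, (fromBlocks_toBlocks (P⁻¹ * Q)).symm⟩
  have h1 : (P⁻¹ * Q)ᵀ * (Pᵀ * A * P) * (P⁻¹ * Q) = Qᵀ * A * Q := by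
    have e1 : P * (P⁻¹ * Q) = Q := by rw [← Matrix.mul_assoc, mul_nonsing_inv P hP, Matrix.one_mul]
    have e2 : (P⁻¹ * Q)ᵀ * Pᵀ = Qᵀ := by rw [← transpose_mul, e1]
    calc (P⁻¹ * Q)ᵀ * (Pᵀ * A * P) * (P⁻¹ * Q)
        = ((P⁻¹ * Q)ᵀ * Pᵀ) * A * (P * (P⁻¹ * Q)) := by simp only [Matrix.mul_assoc]
      _ = _ := by rw [e1, e2]
  rw [h, hblk, hT, fromBlocks_transpose, fromBlocks_multiply, fromBlocks_multiply] at h1
  have h2 := congrArg toBlocks₂₂ h1
  rw [toBlocks_fromBlocks₂₂, toBlocks_fromBlocks₂₂] at h2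
  have h3 : T22ᵀ * H * T22 = U := by
    rw [← h2]; simp
  intro h0
  apply hU
  rw [← h3, det_mul, det_mul, h0]; ring

end Pool.Agent.MP_43d240_ag.H36
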