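import Mathlib

/-!
Project PI (helper84's paper, section 4): lemmas over a discrete valuation ring used in Step 2 of
Lemma 4 and in Corollary 5.
-/

namespace Pool.Agent.MP_43d240_ag.H36

open Matrix IsLocalRing

section DVR

variable {O : Type*} [CommRing O] [IsDomain O] [IsDiscreteValuationRing O]

/-- from `x² a = y² b`, `b` a unit: `a` has even valuation -/
theorem square_rel {t : O} (ht : Irreducible t) {a b x y : O} (hb : IsUnit b) (hx : x ≠ 0)
    (hy : y ≠ 0) (h : x ^ 2 * a = y ^ 2 * b) :
    ∃ (n : ℕ) (w : O), IsUnit w ∧ a = w * t ^ (2 * n) ∧ IsSquare (w * b) := by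
  have ha : a ≠ 0 := by
    rintro rfl
    rw [mul_zero] at h
    exact (mul_ne_zero (pow_ne_zero 2 hy) hb.ne_zero) h.symm
  obtain ⟨m, u, rfl⟩ := IsDiscreteValuationRing.eq_unit_mul_pow_irreducible hx ht
  obtain ⟨n, u', rfl⟩ := IsDiscreteValuationRing.eq_unit_mul_pow_irreducible hy ht
  obtain ⟨k, w, rfl⟩ := IsDiscreteValuationRing.eq_unit_mul_pow_irreducible ha ht
  obtain ⟨b, rfl⟩ := hb
  have h1 : ((u ^ 2 * w : Oˣ) : O) * t ^ (2 * m + k) = ((u' ^ 2 * b : Oˣ) : O) * t ^ (2 * n) := by
    push_cast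
    calc (u : O) ^ 2 * w * t ^ (2 * m + k) = (↑u * t ^ m) ^ 2 * (↑w * t ^ k) := by ring
      _ = (↑u' * t ^ n) ^ 2 * ↑b := h
      _ = _ := by ring
  have h2 := IsDiscreteValuationRing.unit_mul_pow_congr_pow ht ht _ _ _ _ h1
  have h3 := IsDiscreteValuationRing.unit_mul_pow_congr_unit ht _ _ _ _ h1
  refine ⟨n - m, w, w.isUnit, ?_, ?_⟩
  · rw [show k = 2 * (n - m) by omega]
  · refine ⟨((u' * b * u⁻¹ : Oˣ) : O), ?_⟩
    rw [← Units.val_mul, ← Units.val_mul]
    congr 1
    have h4 : w = u⁻¹ ^ 2 * (u' ^ 2 * b) := by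
      rw [← h3, ← mul_assoc, ← mul_pow, inv_mul_cancel, one_pow, one_mul]
    rw [h4, pow_two, pow_two]
    simp only [mul_comm, mul_left_comm, mul_assoc]

theorem aniso_unit {p q r : O} (hns : ¬ IsSquare (residue O (q ^ 2 - p * r))) {x y : O}
    (hxy : IsUnit x ∨ IsUnit y) : IsUnit (p * x ^ 2 + 2 * q * x * y + r * y ^ 2) := by
  by_contra hcon
  have h0 : residue O (p * x ^ 2 + 2 * q * x * y + r * y ^ 2) = 0 :=
    (residue_eq_zero_iff _).mpr ((mem_maximalIdeal _).mpr hcon)
  apply hns
  rcases hxy with hx | hy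
  · have hx0 : residue O x ≠ 0 := (residue_ne_zero_iff_isUnit x).mpr hx
    refine ⟨(residue O r * residue O y + residue O q * residue O x) / residue O x, ?_⟩
    simp only [map_add, map_mul, map_pow, map_sub, map_ofNat] at h0 ⊢
    field_simp
    linear_combination (-(residue O r)) * h0
  · have hy0 : residue O y ≠ 0 := (residue_ne_zero_iff_isUnit y).mpr hy
    refine ⟨(residue O p * residue O x + residue O q * residue O y) / residue O y, ?_⟩
    simp only [map_add, map_mul, map_pow, map_sub, map_ofNat] at h0 ⊢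
    field_simp
    linear_combination (-(residue O p)) * h0

/-- a binary form over `O` which is anisotropic over the residue field has only values of even
valuation -/
theorem aniso_even {t : O} (ht : Irreducible t) {p q r : O}
    (hns : ¬ IsSquare (residue O (q ^ 2 - p * r))) (n : ℕ) :
    ∀ (x y w : O), IsUnit w → p * x ^ 2 + 2 * q * x * y + r * y ^ 2 = w * t ^ n → Even n := by
  induction n using Nat.strong_induction_on with
  | _ n ih =>
    intro x y w hw h
    by_cases hxy : IsUnit x ∨ IsUnit y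
    · have h1 := aniso_unit hns hxy
      rw [h] at h1
      rcases Nat.eq_zero_or_pos n with h0 | h0
      · rw [h0]; exact ⟨0, rfl⟩
      · exfalso
        have h2 := isUnit_of_mul_isUnit_right h1
        exact ht.not_isUnit ((isUnit_pow_iff h0.ne').mp h2)
    · push Not at hxy
      have hx : t ∣ x := by
        have h1 : x ∈ maximalIdeal O := (mem_maximalIdeal x).mpr hxy.1
        rw [ht.maximalIdeal_eq] at h1
        exact Ideal.mem_span_singleton.mp h1
      have hy : t ∣ y := by
        have h1 : y ∈ maximalIdeal O := (mem_maximalIdeal y).mpr hxy.2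
        rw [ht.maximalIdeal_eq] at h1
        exact Ideal.mem_span_singleton.mp h1
      obtain ⟨x', rfl⟩ := hx
      obtain ⟨y', rfl⟩ := hy
      have h1 : t ^ 2 * (p * x' ^ 2 + 2 * q * x' * y' + r * y' ^ 2) = w * t ^ n := by
        rw [← h]; ring
      match n, h1, ih with
      | 0, _, _ => exact ⟨0, rfl⟩
      | 1, h1, _ =>
        exfalso
        have h2 : t * (t * (p * x' ^ 2 + 2 * q * x' * y' + r * y' ^ 2)) = t * w := by
          rw [← mul_assoc, ← pow_two, h1]; ring
        have h3 := mul_left_cancel₀ ht.ne_zero h2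
        rw [← h3] at hw
        exact ht.not_isUnit (isUnit_of_mul_isUnit_left hw)
      | m + 2, h1, ih =>
        have h2 : t ^ 2 * (p * x' ^ 2 + 2 * q * x' * y' + r * y' ^ 2) = t ^ 2 * (w * t ^ m) := by
          rw [h1]; ring
        have h3 := mul_left_cancel₀ (pow_ne_zero 2 ht.ne_zero) h2
        exact (ih m (by omega) x' y' w hw h3).add ⟨1, rfl⟩

end DVR

end Pool.Agent.MP_43d240_ag.H36
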