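import Mathlib
import Pool.Agent.Lib.MP_43d240_ag.H36.LocalLemma
import Pool.Agent.Lib.MP_43d240_ag.H36.LocalDvr
import Pool.Agent.Lib.MP_43d240_ag.H36.LocalAdapted

/-!
Project PI (helper84's paper, section 4): Step 2 of Lemma 4 and Corollary 5 in matrix form.
-/

namespace Pool.Agent.MP_43d240_ag.H36

open Matrix IsLocalRing

section prelim

variable {R : Type*} [CommRing R] [IsLocalRing R]

theorem dvr_quot [IsNoetherianRing R] {Z g : R} (hgZ : ¬ Z ∣ g)
    (hm : maximalIdeal R = Ideal.span {Z, g}) [IsDomain (R ⧸ Ideal.span {Z})] :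
    IsDiscreteValuationRing (R ⧸ Ideal.span {Z}) ∧
      Irreducible (Ideal.Quotient.mk (Ideal.span {Z}) g) := by
  have hsurj : Function.Surjective (Ideal.Quotient.mk (Ideal.span {Z})) :=
    Ideal.Quotient.mk_surjective
  have hloc : IsLocalRing (R ⧸ Ideal.span {Z}) := IsLocalRing.of_surjective' _ hsurj
  have hmax : maximalIdeal (R ⧸ Ideal.span {Z}) =
      Ideal.span {Ideal.Quotient.mk (Ideal.span {Z}) g} := by
    rw [← map_maximalIdeal_of_surjective _ hsurj, hm, Ideal.map_span]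
    have hz : Ideal.Quotient.mk (Ideal.span {Z}) Z = 0 := by
      rw [Ideal.Quotient.eq_zero_iff_dvd]
    rw [Set.image_insert_eq, Set.image_singleton, hz, Ideal.span_insert_zero]
  have hg0 : Ideal.Quotient.mk (Ideal.span {Z}) g ≠ 0 := by
    rw [Ne, Ideal.Quotient.eq_zero_iff_dvd]; exact hgZ
  have hnf : ¬ IsField (R ⧸ Ideal.span {Z}) := by
    rw [isField_iff_maximalIdeal_eq, hmax, Ideal.span_singleton_eq_bot]
    exact hg0
  have hprin : (maximalIdeal (R ⧸ Ideal.span {Z})).IsPrincipal := by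
    rw [hmax]; exact ⟨_, rfl⟩
  have hdvr : IsDiscreteValuationRing (R ⧸ Ideal.span {Z}) :=
    ((IsDiscreteValuationRing.TFAE _ hnf).out 0 4).mpr hprin
  exact ⟨hdvr, (IsDiscreteValuationRing.irreducible_iff_uniformizer _).mpr hmax⟩

theorem isUnit_of_mk {Z : R} [Nontrivial (R ⧸ Ideal.span {Z})] {x : R}
    (h : IsUnit (Ideal.Quotient.mk (Ideal.span {Z}) x)) : IsUnit x := by
  have := IsLocalHom.of_surjective (Ideal.Quotient.mk (Ideal.span {Z})) Ideal.Quotient.mk_surjective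
  exact isUnit_of_map_unit _ x h

theorem sq_of_mk {Z : R} (hZ : ¬ IsUnit Z) {x : R}
    (h : IsSquare (Ideal.Quotient.mk (Ideal.span {Z}) x)) : IsSquare (residue R x) := by
  have h0 : ∀ a ∈ Ideal.span {Z}, residue R a = 0 := by
    intro a ha
    obtain ⟨b, rfl⟩ := Ideal.mem_span_singleton.mp ha
    rw [map_mul, (residue_eq_zero_iff Z).mpr ((mem_maximalIdeal Z).mpr hZ), zero_mul]
  have h1 := h.map (Ideal.Quotient.lift (Ideal.span {Z}) (residue R) h0)
  rwa [Ideal.Quotient.lift_mk] at h1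

theorem sq_of_residue_mk {Z : R} [IsLocalRing (R ⧸ Ideal.span {Z})] {x : R}
    (h : IsSquare (residue (R ⧸ Ideal.span {Z}) (Ideal.Quotient.mk (Ideal.span {Z}) x))) :
    IsSquare (residue R x) := by
  obtain ⟨y, hy⟩ := h
  obtain ⟨y, rfl⟩ := residue_surjective y
  obtain ⟨y, rfl⟩ := Ideal.Quotient.mk_surjective y
  refine ⟨residue R y, ?_⟩
  rw [← map_mul, ← map_mul, ← sub_eq_zero, ← map_sub, ← map_sub, residue_eq_zero_iff,
    mem_maximalIdeal] at hy
  rw [← map_mul, ← sub_eq_zero, ← map_sub, residue_eq_zero_iff, mem_maximalIdeal]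
  exact fun hu => hy (hu.map _)

end prelim

section change

variable {R : Type*} [CommRing R] {n : Type*} [Fintype n] [DecidableEq n]

theorem change_basis {G P Q D : Matrix n n R} (hP : IsUnit P.det) (h : Qᵀ * G * Q = D) :
    (P⁻¹ * Q)ᵀ * (Pᵀ * G * P) * (P⁻¹ * Q) = D := by
  have e1 : P * (P⁻¹ * Q) = Q := by rw [← Matrix.mul_assoc, mul_nonsing_inv P hP, Matrix.one_mul]
  have e2 : (P⁻¹ * Q)ᵀ * Pᵀ = Qᵀ := by rw [← transpose_mul, e1]
  calc (P⁻¹ * Q)ᵀ * (Pᵀ * G * P) * (P⁻¹ * Q)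
      = ((P⁻¹ * Q)ᵀ * Pᵀ) * G * (P * (P⁻¹ * Q)) := by simp only [Matrix.mul_assoc]
    _ = D := by rw [e1, e2, h]

theorem change_det {P Q : Matrix n n R} {Z : R} (hP : IsUnit P.det) (hQ : ¬ Z ∣ Q.det) :
    ¬ Z ∣ (P⁻¹ * Q).det := by
  intro hd
  apply hQ
  have : Q.det = P.det * (P⁻¹ * Q).det := by
    rw [← det_mul, ← Matrix.mul_assoc, mul_nonsing_inv P hP, Matrix.one_mul]
  rw [this]
  exact dvd_mul_of_dvd_right hd _

omit [DecidableEq n] in
theorem symm_change {G P : Matrix n n R} (hG : Gᵀ = G) : (Pᵀ * G * P)ᵀ = Pᵀ * G * P := by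
  rw [transpose_mul, transpose_mul, transpose_transpose, hG, Matrix.mul_assoc]

end change

section schur

variable {R : Type*} [CommRing R] {ι : Type*} [Fintype ι] [DecidableEq ι]

theorem schur (Z : R) (A1 : Matrix (Fin 2) (Fin 2) R) (A2 : Matrix (Fin 2) ι R) (H : Matrix ι ι R)
    (hH : IsUnit H.det) (hHs : Hᵀ = H) :
    ∃ P : Matrix (Fin 2 ⊕ ι) (Fin 2 ⊕ ι) R, P.det = 1 ∧
      Pᵀ * fromBlocks (Z • A1) (Z • A2) (Z • A2ᵀ) H * P
        = fromBlocks (Z • (A1 - Z • (A2 * H⁻¹ * A2ᵀ))) 0 0 H := by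
  have hi : H⁻¹ᵀ = H⁻¹ := by rw [transpose_nonsing_inv, hHs]
  have h1 : H * H⁻¹ = 1 := mul_nonsing_inv H hH
  have h2 : H⁻¹ * H = 1 := nonsing_inv_mul H hH
  refine ⟨fromBlocks 1 0 (-(Z • (H⁻¹ * A2ᵀ))) 1, ?_, ?_⟩
  · rw [det_fromBlocks_zero₁₂]; simp
  · rw [fromBlocks_transpose, fromBlocks_multiply, fromBlocks_multiply]
    congr 1
    · simp only [transpose_neg, transpose_smul, transpose_mul, transpose_transpose, hi,
        transpose_one, Matrix.one_mul, Matrix.mul_one, Matrix.neg_mul, Matrix.mul_neg,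
        Matrix.smul_mul, Matrix.mul_smul, Matrix.add_mul, smul_sub, smul_smul]
      rw [show A2 * H⁻¹ * H * (H⁻¹ * A2ᵀ) = A2 * H⁻¹ * A2ᵀ by
        rw [Matrix.mul_assoc A2, h2, Matrix.mul_one, Matrix.mul_assoc]]
      rw [show A2 * (H⁻¹ * A2ᵀ) = A2 * H⁻¹ * A2ᵀ by rw [Matrix.mul_assoc]]
      module
    · simp only [transpose_neg, transpose_smul, transpose_mul, transpose_transpose, hi,
        transpose_one, Matrix.one_mul, Matrix.mul_one, Matrix.neg_mul,
        Matrix.smul_mul, Matrix.mul_zero, zero_add]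
      rw [Matrix.mul_assoc, h2, Matrix.mul_one]
      abel
    · simp only [transpose_zero, transpose_one, Matrix.zero_mul, Matrix.one_mul, Matrix.mul_one,
        Matrix.mul_neg, Matrix.mul_smul, smul_zero, zero_add]
      rw [← Matrix.mul_assoc, h1, Matrix.one_mul]
      abel
    · simp

theorem det_blocks (Z : R) (A1 : Matrix (Fin 2) (Fin 2) R) (A2 : Matrix (Fin 2) ι R)
    (C : Matrix ι (Fin 2) R) (H : Matrix ι ι R) :
    (fromBlocks (Z • A1) (Z • A2) C H).det = Z ^ 2 * (fromBlocks A1 A2 C H).det := by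
  have : fromBlocks (Z • A1) (Z • A2) C H
      = fromBlocks (Z • (1 : Matrix (Fin 2) (Fin 2) R)) 0 0 (1 : Matrix ι ι R)
        * fromBlocks A1 A2 C H := by
    rw [fromBlocks_multiply]; simp
  rw [this, det_mul, det_fromBlocks_zero₂₁, det_smul]
  simp

end schur

section adapt

variable {R : Type*} [CommRing R] [IsDomain R] [IsLocalRing R] [IsNoetherianRing R]
variable {ι : Type*} [Fintype ι] [DecidableEq ι]

omit [IsDomain R] [IsLocalRing R] [IsNoetherianRing R] in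
theorem mk_det {I : Ideal R} (X : Matrix ι ι R) :
    Ideal.Quotient.mk I X.det = (X.map (Ideal.Quotient.mk I)).det := by
  rw [RingHom.map_det, RingHom.mapMatrix_apply]

/-- the Gram matrix in a basis adapted to the kernel modulo `Z` -/
theorem adapted_form {Z g : R} (hZ : Prime Z) (hgZ : ¬ Z ∣ g)
    (hm : maximalIdeal R = Ideal.span {Z, g})
    (G : Matrix (Fin 2 ⊕ ι) (Fin 2 ⊕ ι) R) (hG : Gᵀ = G)
    (Q : Matrix (Fin 2 ⊕ ι) (Fin 2 ⊕ ι) R) (hQ : ¬ Z ∣ Q.det) (U : Matrix ι ι R)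
    (hU : ¬ Z ∣ U.det) (W : Matrix (Fin 2) (Fin 2) R)
    (hQG : Qᵀ * G * Q = fromBlocks (Z • W) 0 0 U) :
    ∃ (P : Matrix (Fin 2 ⊕ ι) (Fin 2 ⊕ ι) R) (A1 : Matrix (Fin 2) (Fin 2) R)
      (A2 : Matrix (Fin 2) ι R) (H : Matrix ι ι R), IsUnit P.det ∧ A1ᵀ = A1 ∧ Hᵀ = H ∧
      ¬ Z ∣ H.det ∧ Pᵀ * G * P = fromBlocks (Z • A1) (Z • A2) (Z • A2ᵀ) H := by
  have hdom := quot_dom hZ
  obtain ⟨hdvr, hirr⟩ := dvr_quot hgZ hm
  have hA : (G.map (Ideal.Quotient.mk (Ideal.span {Z})))ᵀ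
      = G.map (Ideal.Quotient.mk (Ideal.span {Z})) := by rw [← Matrix.transpose_map, hG]
  have hQG' : (Q.map (Ideal.Quotient.mk (Ideal.span {Z})))ᵀ
      * G.map (Ideal.Quotient.mk (Ideal.span {Z})) * Q.map (Ideal.Quotient.mk (Ideal.span {Z}))
      = fromBlocks 0 0 0 (U.map (Ideal.Quotient.mk (Ideal.span {Z}))) := by
    have h2 := congrArg (fun X => X.map (Ideal.Quotient.mk (Ideal.span {Z}))) hQG
    simp only [Matrix.map_mul, fromBlocks_map] at h2
    rw [Matrix.map_zero _ (map_zero _), Matrix.map_zero _ (map_zero _), map_smul_zero,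
      Matrix.transpose_map] at h2
    exact h2
  obtain ⟨Pb, Hb, hPb, hHb, hPA⟩ := exists_adapted _ hA _ (det_map_ne Q hQ)
    _ (det_map_ne U hU) hQG'
  obtain ⟨P, hPmap⟩ : ∃ P : Matrix (Fin 2 ⊕ ι) (Fin 2 ⊕ ι) R,
      P.map (Ideal.Quotient.mk (Ideal.span {Z})) = Pb := by
    have h1 : ∀ i k, ∃ b : R, Ideal.Quotient.mk (Ideal.span {Z}) b = Pb i k :=
      fun i k => Ideal.Quotient.mk_surjective _
    choose b hb using h1
    exact ⟨Matrix.of b, by ext i k; exact hb i k⟩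
  have hPu : IsUnit P.det := by
    apply isUnit_of_mk (Z := Z)
    rw [mk_det, hPmap]
    exact hPb
  have hsym := symm_change (P := P) hG
  obtain ⟨X11, X12, X21, X22, hX⟩ : ∃ X11 X12 X21 X22, Pᵀ * G * P = fromBlocks X11 X12 X21 X22 :=
    ⟨_, _, _, _, (fromBlocks_toBlocks (Pᵀ * G * P)).symm⟩
  have hmap : (Pᵀ * G * P).map (Ideal.Quotient.mk (Ideal.span {Z})) = fromBlocks 0 0 0 Hb := by
    rw [Matrix.map_mul, Matrix.map_mul, Matrix.transpose_map, hPmap, hPA]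
  rw [hX, fromBlocks_map] at hmap
  rw [hX, fromBlocks_transpose] at hsym
  obtain ⟨h11, h12, h21, h22⟩ := fromBlocks_inj.mp hmap
  obtain ⟨s11, s21, s12, s22⟩ := fromBlocks_inj.mp hsym
  obtain ⟨A1, rfl⟩ := exists_smul X11 h11
  obtain ⟨A2, rfl⟩ := exists_smul X12 h12
  refine ⟨P, A1, A2, X22, hPu, ?_, s22, ?_, ?_⟩
  · ext i k
    have := congrFun (congrFun s11 i) k
    rw [transpose_apply, Matrix.smul_apply, Matrix.smul_apply, smul_eq_mul, smul_eq_mul] at this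
    exact mul_left_cancel₀ hZ.ne_zero this
  · rw [← Ideal.Quotient.eq_zero_iff_dvd, mk_det, h22]
    exact hHb
  · rw [hX, ← s12, transpose_smul]

end adapt

end Pool.Agent.MP_43d240_ag.H36
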