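import Mathlib
import Pool.Agent.Lib.MP_43d240_ag.H36.LocalMain

/-!
Project PI (helper84's paper, section 4): Step 2 of Lemma 4 and Corollary 5 in matrix form:
the final statement.
-/

namespace Pool.Agent.MP_43d240_ag.H36

open Matrix IsLocalRing

section small

variable {R : Type*} [CommRing R]

theorem diag_value {A1 M N : Matrix (Fin 2) (Fin 2) R} {v1 v2 Z : R} (hA : A1ᵀ = A1)
    (h : diagonal ![v1, v2] = Mᵀ * A1 * M + Z • N) :
    v1 = A1 0 0 * (M 0 0) ^ 2 + 2 * A1 0 1 * M 0 0 * M 1 0 + A1 1 1 * (M 1 0) ^ 2 + Z * N 0 0 := by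
  have h1 := congrFun (congrFun h 0) 0
  have h2 : A1 1 0 = A1 0 1 := by
    have := congrFun (congrFun hA 0) 1
    exact this
  simp only [diagonal_apply_eq, Matrix.add_apply, Matrix.mul_apply, Fin.sum_univ_two,
    Matrix.smul_apply, smul_eq_mul, transpose_apply, Matrix.cons_val_zero] at h1
  rw [h1, h2]; ring

theorem det_rel {A1 M N : Matrix (Fin 2) (Fin 2) R} {v1 v2 Z : R}
    (h : diagonal ![v1, v2] = Mᵀ * A1 * M + Z • N) :
    Z ∣ v1 * v2 - M.det ^ 2 * A1.det := by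
  rw [← Ideal.Quotient.eq_zero_iff_dvd, map_sub, sub_eq_zero]
  have h1 : (diagonal ![v1, v2]).det = v1 * v2 := by
    rw [det_diagonal, Fin.prod_univ_two]; rfl
  rw [← h1, h, mk_det, Matrix.map_add _ (map_add _), map_smul_zero, add_zero, ← mk_det,
    det_mul, det_mul, det_transpose]
  congr 1
  ring

theorem det_two {A1 : Matrix (Fin 2) (Fin 2) R} (hA : A1ᵀ = A1) :
    A1.det = A1 0 0 * A1 1 1 - A1 0 1 ^ 2 := by
  have h2 : A1 1 0 = A1 0 1 := by
    have := congrFun (congrFun hA 0) 1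
    exact this
  rw [det_fin_two, h2]; ring

end small

section main

variable {R : Type*} [CommRing R] [IsDomain R] [IsLocalRing R] [IsNoetherianRing R]
variable {ι : Type*} [Fintype ι] [DecidableEq ι]

/-- case (i): `A1` is unimodular -/
theorem case_one {Z g : R} (hZ : Prime Z) (hgZ : ¬ Z ∣ g)
    (hm : maximalIdeal R = Ideal.span {Z, g}) {A1 : Matrix (Fin 2) (Fin 2) R} (hA : A1ᵀ = A1)
    (hns : ¬ IsSquare (residue R (-A1.det)))
    {M N : Matrix (Fin 2) (Fin 2) R} {v1 v2 : R} (hv1 : ¬ Z ∣ v1)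
    (h : diagonal ![v1, v2] = Mᵀ * A1 * M + Z • N)
    (c s0 t0 : R) (hs0 : ¬ Z ∣ s0) (ht0 : ¬ Z ∣ t0) (hc : Z ∣ s0 ^ 2 * (c * v1) - t0 ^ 2) :
    ∃ (n : ℕ) (e r : R), IsUnit e ∧ c = g ^ (2 * n) * e + Z * r := by
  have hdom := quot_dom hZ
  obtain ⟨hdvr, hirr⟩ := dvr_quot hgZ hm
  have hmk0 : ∀ x : R, Ideal.Quotient.mk (Ideal.span {Z}) x = 0 ↔ Z ∣ x :=
    fun x => Ideal.Quotient.eq_zero_iff_dvd Z x
  have hmkZ : Ideal.Quotient.mk (Ideal.span {Z}) Z = 0 := (hmk0 Z).mpr dvd_rfl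
  have hval := diag_value hA h
  have hns' : ¬ IsSquare (residue (R ⧸ Ideal.span {Z})
      ((Ideal.Quotient.mk (Ideal.span {Z}) (A1 0 1)) ^ 2
        - Ideal.Quotient.mk (Ideal.span {Z}) (A1 0 0)
          * Ideal.Quotient.mk (Ideal.span {Z}) (A1 1 1))) := by
    intro hsq
    rw [← map_pow, ← map_mul, ← map_sub] at hsq
    apply hns
    have := sq_of_residue_mk hsq
    rwa [show A1 0 1 ^ 2 - A1 0 0 * A1 1 1 = -A1.det by rw [det_two hA]; ring] at this
  have hv1' : Ideal.Quotient.mk (Ideal.span {Z}) v1 ≠ 0 := by rwa [Ne, hmk0]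
  obtain ⟨n, w, hw⟩ := IsDiscreteValuationRing.eq_unit_mul_pow_irreducible hv1' hirr
  have hev : Even n := by
    refine aniso_even hirr hns' n (Ideal.Quotient.mk (Ideal.span {Z}) (M 0 0))
      (Ideal.Quotient.mk (Ideal.span {Z}) (M 1 0)) w w.isUnit ?_
    rw [← hw, hval]
    simp only [map_add, map_mul, map_pow, map_ofNat, hmkZ, zero_mul, add_zero]
  obtain ⟨k, hk⟩ := hev
  have hrel : (Ideal.Quotient.mk (Ideal.span {Z}) s0
      * (Ideal.Quotient.mk (Ideal.span {Z}) g) ^ k) ^ 2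
      * (w * Ideal.Quotient.mk (Ideal.span {Z}) c)
      = (Ideal.Quotient.mk (Ideal.span {Z}) t0) ^ 2 * 1 := by
    have h1 := (hmk0 _).mpr hc
    rw [map_sub, sub_eq_zero, map_mul, map_mul, map_pow, map_pow, hw, hk] at h1
    rw [mul_one, ← h1]; ring
  have hs0' : Ideal.Quotient.mk (Ideal.span {Z}) s0 ≠ 0 := by rwa [Ne, hmk0]
  have ht0' : Ideal.Quotient.mk (Ideal.span {Z}) t0 ≠ 0 := by rwa [Ne, hmk0]
  obtain ⟨m, w', hw', hcw, -⟩ := square_rel hirr isUnit_one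
    (mul_ne_zero hs0' (pow_ne_zero k hirr.ne_zero)) ht0' hrel
  obtain ⟨w', rfl⟩ := hw'
  obtain ⟨e, he⟩ := Ideal.Quotient.mk_surjective (((w⁻¹ * w' : (R ⧸ Ideal.span {Z})ˣ)) :
    R ⧸ Ideal.span {Z})
  have heu : IsUnit e := by
    apply isUnit_of_mk (Z := Z)
    rw [he]
    exact Units.isUnit _
  have hce : Ideal.Quotient.mk (Ideal.span {Z}) (c - g ^ (2 * m) * e) = 0 := by
    rw [map_sub, map_mul, map_pow, he, sub_eq_zero]
    calc Ideal.Quotient.mk (Ideal.span {Z}) c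
        = ↑w⁻¹ * (↑w * Ideal.Quotient.mk (Ideal.span {Z}) c) := by
          rw [← mul_assoc, Units.inv_mul, one_mul]
      _ = _ := by rw [hcw]; push_cast; ring
  obtain ⟨r, hr⟩ := (hmk0 _).mp hce
  exact ⟨m, e, r, heu, by rw [← hr]; ring⟩

/-- case (ii) is impossible -/
theorem case_two {Z g : R} (hZ : Prime Z) (hg : Prime g) (hgZ : ¬ Z ∣ g)
    (hm : maximalIdeal R = Ideal.span {Z, g}) {A1 : Matrix (Fin 2) (Fin 2) R}
    {A2 : Matrix (Fin 2) ι R} {H : Matrix ι ι R} (hH : Hᵀ = H) (hHu : IsUnit H.det)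
    {f : R} {w : R ⧸ Ideal.span {Z}}
    (hw : Ideal.Quotient.mk (Ideal.span {Z}) A1.det
      = w * Ideal.Quotient.mk (Ideal.span {Z}) g ^ 2)
    (hwf : IsSquare (w * Ideal.Quotient.mk (Ideal.span {Z}) f)) (hwu : IsUnit w)
    {Q' : Matrix (Fin 2 ⊕ ι) (Fin 2 ⊕ ι) R} {U' : Matrix ι ι R}
    {w1 w2 h s' t' : R} (hQ' : ¬ g ∣ Q'.det)
    (hQG : Q'ᵀ * fromBlocks (Z • A1) (Z • A2) (Z • A2ᵀ) H * Q'
      = fromBlocks (g • diagonal ![w1, w2]) 0 0 U') (ht' : ¬ g ∣ t')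
    (hh : g ∣ s' ^ 2 * (w1 * w2) - t' ^ 2 * h) (hns : ¬ IsSquare (residue R (f * h))) : False := by
  have hZg : ¬ g ∣ Z := by
    intro hd
    exact hgZ ((hg.irreducible.dvd_symm hZ.irreducible) hd)
  have hdom := quot_dom hZ
  have hdomg := quot_dom hg
  obtain ⟨hdvr, hirr⟩ := dvr_quot hgZ hm
  obtain ⟨hdvrg, hirrg⟩ := dvr_quot hZg (by rw [hm]; congr 1; exact Set.pair_comm _ _)
  have hmk0 : ∀ x : R, Ideal.Quotient.mk (Ideal.span {Z}) x = 0 ↔ Z ∣ x :=
    fun x => Ideal.Quotient.eq_zero_iff_dvd Z x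
  have hmkZ : Ideal.Quotient.mk (Ideal.span {Z}) Z = 0 := (hmk0 Z).mpr dvd_rfl
  have hmk0g : ∀ x : R, Ideal.Quotient.mk (Ideal.span {g}) x = 0 ↔ g ∣ x :=
    fun x => Ideal.Quotient.eq_zero_iff_dvd g x
  have hhu : IsUnit h := by
    have h1 : IsUnit (f * h) := by
      rw [← residue_ne_zero_iff_isUnit]
      intro h0
      rw [h0] at hns
      exact hns IsSquare.zero
    exact isUnit_of_mul_isUnit_right h1
  -- Schur complement
  obtain ⟨P, hP, hPG⟩ := schur Z A1 A2 H hHu hH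
  have hPu : IsUnit P.det := by rw [hP]; exact isUnit_one
  set A1' := A1 - Z • (A2 * H⁻¹ * A2ᵀ) with hA1'
  have hQ2 := change_det (P := P) hPu hQ'
  have hQG2 := change_basis (P := P) hPu hQG
  rw [hPG] at hQG2
  -- modulo `g`
  obtain ⟨T11, T12, T21, T22, hT⟩ : ∃ T11 T12 T21 T22, P⁻¹ * Q' = fromBlocks T11 T12 T21 T22 :=
    ⟨_, _, _, _, (fromBlocks_toBlocks (P⁻¹ * Q')).symm⟩
  have hHg : ¬ g ∣ H.det := fun hd => hg.not_isUnit (isUnit_of_dvd_unit hd hHu)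
  have hker : (Z • A1').map (Ideal.Quotient.mk (Ideal.span {g})) = 0 := by
    have hQG3 := hQG2
    rw [hT] at hQG3
    have h2 := congrArg (fun X => X.map (Ideal.Quotient.mk (Ideal.span {g}))) hQG3
    simp only [Matrix.map_mul, fromBlocks_map] at h2
    rw [Matrix.map_zero _ (map_zero _), Matrix.map_zero _ (map_zero _),
      map_smul_zero (diagonal ![w1, w2]), Matrix.transpose_map, fromBlocks_map] at h2
    have hd := det_map_ne _ hQ2
    rw [hT, fromBlocks_map] at hd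
    exact (kernel_lemma _ _ _ (det_map_ne _ hHg) _ _ _ _ hd h2).2.1
  obtain ⟨G'', hG''⟩ : ∃ G'' : Matrix (Fin 2) (Fin 2) R, A1' = g • G'' := by
    apply exists_smul
    ext i k
    have := congrFun (congrFun hker i) k
    rw [Matrix.map_apply, Matrix.smul_apply, smul_eq_mul, map_mul, Matrix.zero_apply] at this
    rcases mul_eq_zero.mp this with h7 | h7
    · exact absurd ((hmk0g Z).mp h7) hZg
    · exact h7
  rw [hG''] at hQG2
  -- the form at `g`
  have hcomm : Z • g • G'' = g • Z • G'' := smul_comm _ _ _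
  rw [hcomm] at hQG2
  obtain ⟨M', N', hMN'⟩ := adapted hg (Z • G'') (0 : Matrix (Fin 2) ι R) H U' hHg _ hQ2
    (diagonal ![w1, w2]) (by
      rw [transpose_zero, smul_zero, smul_zero]
      exact hQG2)
  have hdg := det_rel hMN'
  have hG2 : (Z • G'').det = Z ^ 2 * G''.det := by rw [det_smul]; simp
  -- determinants modulo `Z`
  have hdetZ : Ideal.Quotient.mk (Ideal.span {Z}) G''.det = w := by
    have h1 : Ideal.Quotient.mk (Ideal.span {Z}) A1.det
        = Ideal.Quotient.mk (Ideal.span {Z}) A1'.det := by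
      rw [mk_det, mk_det, hA1', Matrix.map_sub _ (map_sub _), map_smul_zero, sub_zero]
    have h2 : A1'.det = g ^ 2 * G''.det := by rw [hG'', det_smul]; simp
    rw [h2, hw, map_mul, map_pow, mul_comm w] at h1
    exact (mul_left_cancel₀ (pow_ne_zero 2 hirr.ne_zero) h1).symm
  have hGu : IsUnit G''.det := by
    apply isUnit_of_mk (Z := Z)
    rw [hdetZ]; exact hwu
  have hsq1 : IsSquare (residue R (G''.det * f)) := by
    apply sq_of_mk hZ.not_isUnit
    rw [map_mul, hdetZ]; exact hwf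
  -- determinants modulo `g`
  have hsq2 : IsSquare (residue R (G''.det * h)) := by
    have hrel : (Ideal.Quotient.mk (Ideal.span {g}) (s' * M'.det * Z)) ^ 2
        * Ideal.Quotient.mk (Ideal.span {g}) G''.det
        = (Ideal.Quotient.mk (Ideal.span {g}) t') ^ 2
          * Ideal.Quotient.mk (Ideal.span {g}) h := by
      rw [← map_pow, ← map_mul, ← map_pow, ← map_mul, ← sub_eq_zero, ← map_sub, hmk0g]
      have h3 := dvd_sub hh (dvd_mul_of_dvd_right hdg (s' ^ 2))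
      rw [hG2] at h3
      convert h3 using 1
      ring
    have hhu' : IsUnit (Ideal.Quotient.mk (Ideal.span {g}) h) := hhu.map _
    have hy : Ideal.Quotient.mk (Ideal.span {g}) t' ≠ 0 := by rwa [Ne, hmk0g]
    have hx : Ideal.Quotient.mk (Ideal.span {g}) (s' * M'.det * Z) ≠ 0 := by
      intro h0
      rw [h0, zero_pow two_ne_zero, zero_mul] at hrel
      exact (mul_ne_zero (pow_ne_zero 2 hy) hhu'.ne_zero) hrel.symm
    obtain ⟨n, w', hw', hGw, hsq⟩ := square_rel hirrg hhu' hx hy hrel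
    have hn : n = 0 := by
      by_contra hn
      have h4 : IsUnit (Ideal.Quotient.mk (Ideal.span {g}) G''.det) := hGu.map _
      rw [hGw] at h4
      have h5 := isUnit_of_mul_isUnit_right h4
      exact hirrg.not_isUnit ((isUnit_pow_iff (by omega)).mp h5)
    rw [hn, mul_zero, pow_zero, mul_one] at hGw
    apply sq_of_mk hg.not_isUnit
    rw [map_mul, hGw]; exact hsq
  apply hns
  obtain ⟨a, ha⟩ := hsq1
  obtain ⟨b, hb⟩ := hsq2
  have hr0 : residue R G''.det ≠ 0 := (residue_ne_zero_iff_isUnit _).mpr hGu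
  refine ⟨a * b / residue R G''.det, ?_⟩
  rw [map_mul] at ha hb ⊢
  field_simp
  linear_combination (residue R G''.det * residue R h) * ha + (a * a) * hb

/-- **Step 2 of Lemma 4 and Corollary 5.** -/
theorem local_step2 {Z g : R} (hZ : Prime Z) (hg : Prime g) (hgZ : ¬ Z ∣ g)
    (hm : maximalIdeal R = Ideal.span {Z, g}) {i0 : R} (hi0 : i0 ^ 2 = -1)
    (G : Matrix (Fin 2 ⊕ ι) (Fin 2 ⊕ ι) R) (hG : Gᵀ = G) (j : ℕ) (hj : j = 0 ∨ j = 2) (u : R)
    (hu : IsUnit u) (hdet : G.det = u * Z ^ 2 * g ^ j)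
    -- the lattice at `Z`
    (Q : Matrix (Fin 2 ⊕ ι) (Fin 2 ⊕ ι) R) (hQ : ¬ Z ∣ Q.det) (U : Matrix ι ι R)
    (hU : ¬ Z ∣ U.det) (v1 v2 : R) (hv1 : ¬ Z ∣ v1) (hv2 : ¬ Z ∣ v2)
    (hQG : Qᵀ * G * Q = fromBlocks (Z • diagonal ![v1, v2]) 0 0 U)
    (f s t : R) (hs : ¬ Z ∣ s) (ht : ¬ Z ∣ t) (hf : Z ∣ s ^ 2 * (v1 * v2) - t ^ 2 * f)
    (hfn : ¬ IsSquare (residue R f))
    -- the lattice at `g`
    (hgdat : j = 2 → ∃ (Q' : Matrix (Fin 2 ⊕ ι) (Fin 2 ⊕ ι) R) (U' : Matrix ι ι R)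
      (w1 w2 h s' t' : R), ¬ g ∣ Q'.det ∧
        Q'ᵀ * G * Q' = fromBlocks (g • diagonal ![w1, w2]) 0 0 U' ∧ ¬ g ∣ s' ∧ ¬ g ∣ t' ∧
        g ∣ s' ^ 2 * (w1 * w2) - t' ^ 2 * h ∧ ¬ IsSquare (residue R (f * h)))
    -- the conclusion for `c`
    (c s0 t0 : R) (hs0 : ¬ Z ∣ s0) (ht0 : ¬ Z ∣ t0) (hc : Z ∣ s0 ^ 2 * (c * v1) - t0 ^ 2) :
    ∃ (n : ℕ) (e r : R), IsUnit e ∧ c = g ^ (2 * n) * e + Z * r := by
  have hdom := quot_dom hZ
  obtain ⟨hdvr, hirr⟩ := dvr_quot hgZ hm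
  have hmk0 : ∀ x : R, Ideal.Quotient.mk (Ideal.span {Z}) x = 0 ↔ Z ∣ x :=
    fun x => Ideal.Quotient.eq_zero_iff_dvd Z x
  have hmkZ : Ideal.Quotient.mk (Ideal.span {Z}) Z = 0 := (hmk0 Z).mpr dvd_rfl
  have hfu : IsUnit f := by
    rw [← residue_ne_zero_iff_isUnit]
    intro h0
    rw [h0] at hfn
    exact hfn IsSquare.zero
  obtain ⟨P, A1, A2, H, hPu, hA1, hHs, hHd, hPG⟩ := adapted_form hZ hgZ hm G hG Q hQ U hU _ hQG
  have hQ1 := change_det (P := P) hPu hQ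
  have hQG1 := change_basis (P := P) hPu hQG
  rw [hPG] at hQG1
  obtain ⟨M, N, hMN⟩ := adapted hZ A1 A2 H U hHd _ hQ1 _ hQG1
  have hdr := det_rel hMN
  -- the determinant
  have hdet1 : (fromBlocks A1 A2 (Z • A2ᵀ) H).det = P.det ^ 2 * u * g ^ j := by
    have h1 : (Pᵀ * G * P).det = P.det ^ 2 * G.det := by
      rw [det_mul, det_mul, det_transpose]; ring
    rw [hPG, det_blocks, hdet] at h1
    apply mul_left_cancel₀ (pow_ne_zero 2 hZ.ne_zero)
    rw [h1]; ring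
  have hdet2 : Ideal.Quotient.mk (Ideal.span {Z}) A1.det
      * Ideal.Quotient.mk (Ideal.span {Z}) H.det
      = Ideal.Quotient.mk (Ideal.span {Z}) (P.det ^ 2 * u)
        * Ideal.Quotient.mk (Ideal.span {Z}) g ^ j := by
    rw [← map_pow, ← map_mul _ (P.det ^ 2 * u), ← hdet1, mk_det (fromBlocks _ _ _ _),
      fromBlocks_map, map_smul_zero, det_fromBlocks_zero₂₁, ← mk_det, ← mk_det]
  -- valuation of det A1
  have hv12 : ¬ Z ∣ v1 * v2 := fun hd => (hZ.dvd_or_dvd hd).elim hv1 hv2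
  have hMd : ¬ Z ∣ M.det := by
    intro hd
    apply hv12
    have h1 := dvd_add hdr (dvd_mul_of_dvd_left (dvd_pow hd two_ne_zero) A1.det)
    rwa [sub_add_cancel] at h1
  have hrel : (Ideal.Quotient.mk (Ideal.span {Z}) (s * M.det)) ^ 2
      * Ideal.Quotient.mk (Ideal.span {Z}) A1.det
      = (Ideal.Quotient.mk (Ideal.span {Z}) t) ^ 2
        * Ideal.Quotient.mk (Ideal.span {Z}) f := by
    rw [← map_pow, ← map_mul, ← map_pow, ← map_mul, ← sub_eq_zero, ← map_sub, hmk0]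
    have h3 := dvd_sub hf (dvd_mul_of_dvd_right hdr (s ^ 2))
    convert h3 using 1
    ring
  have hx : Ideal.Quotient.mk (Ideal.span {Z}) (s * M.det) ≠ 0 := by
    rw [Ne, hmk0]
    exact fun hd => (hZ.dvd_or_dvd hd).elim hs hMd
  have hy : Ideal.Quotient.mk (Ideal.span {Z}) t ≠ 0 := by rwa [Ne, hmk0]
  obtain ⟨n, w, hw, hAw, hsq⟩ := square_rel hirr (hfu.map _) hx hy hrel
  rcases Nat.eq_zero_or_pos n with hn | hn
  · -- case (i)
    rw [hn, mul_zero, pow_zero, mul_one] at hAw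
    refine case_one hZ hgZ hm hA1 ?_ hv1 hMN c s0 t0 hs0 ht0 hc
    have hsq' : IsSquare (residue R (A1.det * f)) := by
      apply sq_of_mk hZ.not_isUnit
      rw [map_mul, hAw]; exact hsq
    have hAu : IsUnit A1.det := by
      apply isUnit_of_mk (Z := Z)
      rw [hAw]; exact hw
    intro hcon
    apply hfn
    obtain ⟨a, ha⟩ := hsq'
    obtain ⟨b, hb⟩ := hcon
    have hr0 : residue R A1.det ≠ 0 := (residue_ne_zero_iff_isUnit _).mpr hAu
    have hi : residue R i0 ^ 2 = -1 := by rw [← map_pow, hi0, map_neg, map_one]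
    refine ⟨a * (residue R i0 * b) / residue R A1.det, ?_⟩
    rw [map_mul] at ha
    rw [map_neg] at hb
    field_simp
    linear_combination (residue R A1.det) * ha - (a ^ 2 * (b * b)) * hi - (a * a) * hb
  · -- case (ii)
    exfalso
    have hgne : Ideal.Quotient.mk (Ideal.span {Z}) g ≠ 0 := hirr.ne_zero
    obtain ⟨w, rfl⟩ := hw
    obtain ⟨uu, huu⟩ : IsUnit (Ideal.Quotient.mk (Ideal.span {Z}) (P.det ^ 2 * u)) :=
      ((hPu.pow 2).mul hu).map _
    have hHne : Ideal.Quotient.mk (Ideal.span {Z}) H.det ≠ 0 := by rwa [Ne, hmk0]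
    obtain ⟨k, h0, hk⟩ := IsDiscreteValuationRing.eq_unit_mul_pow_irreducible hHne hirr
    rw [hAw, hk, ← huu] at hdet2
    have hcomp : ((w * h0 : (R ⧸ Ideal.span {Z})ˣ) : R ⧸ Ideal.span {Z})
        * Ideal.Quotient.mk (Ideal.span {Z}) g ^ (2 * n + k)
        = (uu : R ⧸ Ideal.span {Z}) * Ideal.Quotient.mk (Ideal.span {Z}) g ^ j := by
      rw [← hdet2]; push_cast; ring
    have hpow := IsDiscreteValuationRing.unit_mul_pow_congr_pow hirr hirr _ _ _ _ hcomp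
    have hj2 : j = 2 := by omega
    have hk0 : k = 0 := by omega
    have hn1 : n = 1 := by omega
    rw [hk0, pow_zero, mul_one] at hk
    have hHu : IsUnit H.det := by
      apply isUnit_of_mk (Z := Z)
      rw [hk]; exact Units.isUnit _
    rw [hn1] at hAw
    obtain ⟨Q', U', w1, w2, h, s', t', hQ', hQG', hs', ht', hh, hns⟩ := hgdat hj2
    have hQ2 := change_det (P := P) hPu hQ'
    have hQG2 := change_basis (P := P) hPu hQG'
    rw [hPG] at hQG2
    exact case_two hZ hg hgZ hm hHs hHu hAw hsq w.isUnit hQ2 hQG2 ht' hh hns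

end main

end Pool.Agent.MP_43d240_ag.H36
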