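import Mathlib

/-!
Project PI, chapter ALG: self adjoint elements for an alternating form are quadratic.
-/

namespace Pool.Agent.MP_43d240_ag.H36

open Matrix

section four

variable {F : Type*} [Field F]

/-- alternating 4x4 matrix -/
def alt4 (a b c d e f : F) : Matrix (Fin 4) (Fin 4) F :=
  !![0, a, b, c; -a, 0, d, e; -b, -d, 0, f; -c, -e, -f, 0]

theorem alt4_of {M : Matrix (Fin 4) (Fin 4) F} (h : ∀ i j, M i j = - M j i)
    (h0 : ∀ i, M i i = 0) :
    M = alt4 (M 0 1) (M 0 2) (M 0 3) (M 1 2) (M 1 3) (M 2 3) := by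
  ext i j
  fin_cases i <;> fin_cases j <;> simp [alt4, h0, ← h]

theorem alt4_mul (a b c d e f : F) :
    alt4 (-f) e (-d) (-c) b (-a) * alt4 a b c d e f = (a * f - b * e + c * d) • 1 := by
  ext i j
  fin_cases i <;> fin_cases j <;> simp [alt4] <;> ring

theorem alt4_mul' (a b c d e f a' b' c' d' e' f' : F) :
    alt4 a b c d e f * alt4 (-f') e' (-d') (-c') b' (-a')
      + alt4 a' b' c' d' e' f' * alt4 (-f) e (-d) (-c) b (-a)
      = (a * f' - b * e' + c * d' + a' * f - b' * e + c' * d) • 1 := by
  ext i j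
  fin_cases i <;> fin_cases j <;>
    simp [alt4, Matrix.mul_apply, Fin.sum_univ_four] <;> ring

theorem alt4_quad {a b c d e f a' b' c' d' e' f' : F} (hp : a * f - b * e + c * d ≠ 0)
    {S : Matrix (Fin 4) (Fin 4) F}
    (h : alt4 a b c d e f * S = alt4 a' b' c' d' e' f') :
    ∃ t n : F, S * S = t • S + n • 1 := by
  set p := a * f - b * e + c * d with hpdef
  set A := alt4 a b c d e f with hA
  set A' := alt4 (-f) e (-d) (-c) b (-a) with hA'
  set B := alt4 a' b' c' d' e' f' with hB
  set B' := alt4 (-f') e' (-d') (-c') b' (-a') with hB'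
  have h1 : A' * A = p • 1 := alt4_mul a b c d e f
  have h2 : B' * B = (a' * f' - b' * e' + c' * d') • 1 := alt4_mul a' b' c' d' e' f'
  have h3 : A * B' + B * A' = (a * f' - b * e' + c * d' + a' * f - b' * e + c' * d) • 1 :=
    alt4_mul' a b c d e f a' b' c' d' e' f'
  set q := a' * f' - b' * e' + c' * d'
  set m := a * f' - b * e' + c * d' + a' * f - b' * e + c' * d
  have hS : p • S = A' * B := by
    rw [← h, ← Matrix.mul_assoc, h1, smul_mul, Matrix.one_mul]
  have h4 : (p * p) • (S * S) = (m * p) • S - (p * q) • 1 := by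
    calc (p * p) • (S * S) = (p • S) * (p • S) := by
          rw [smul_mul, mul_smul_comm, smul_smul]
      _ = A' * (B * A') * B := by rw [hS]; simp only [Matrix.mul_assoc]
      _ = A' * (m • 1 - A * B') * B := by
          rw [← h3]; simp
      _ = m • (A' * B) - (A' * A) * (B' * B) := by
          rw [Matrix.mul_sub, Matrix.sub_mul]
          simp only [Matrix.mul_assoc, Matrix.smul_mul, Matrix.mul_smul, Matrix.one_mul]
      _ = _ := by
          rw [← hS, h1, h2, smul_smul]
          simp only [Matrix.smul_mul, Matrix.one_mul, smul_smul]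
  refine ⟨m / p, - q / p, ?_⟩
  have h5 : (p * p)⁻¹ • ((p * p) • (S * S)) = S * S := by
    rw [smul_smul, inv_mul_cancel₀ (mul_ne_zero hp hp), one_smul]
  rw [← h5, h4, smul_sub, smul_smul, smul_smul, sub_eq_add_neg, ← neg_smul]
  congr 2
  · field_simp
  · field_simp

end four

section base

variable {F : Type*} [Field F] {V : Type*} [AddCommGroup V] [Module F V] [FiniteDimensional F V]

theorem quad_base (hV : Module.finrank F V = 4) (B : V →ₗ[F] V →ₗ[F] F) (halt : ∀ x, B x x = 0)
    (hnd : ∀ x, (∀ y, B x y = 0) → x = 0) (s : V →ₗ[F] V)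
    (hs : ∀ x y, B (s x) y = B x (s y)) (h2 : (2 : F) ≠ 0) :
    ∃ t n : F, ∀ x, s (s x) = t • s x + n • x := by
  have hskew : ∀ x y, B x y = - B y x := by
    intro x y
    have h := halt (x + y)
    rw [map_add, map_add, LinearMap.add_apply, LinearMap.add_apply, halt, halt] at h
    rw [zero_add, add_zero] at h
    exact eq_neg_of_add_eq_zero_right h
  let e : Module.Basis (Fin 4) F V := Module.finBasisOfFinrankEq F V hV
  set S := LinearMap.toMatrix e e s with hS
  set M0 : Matrix (Fin 4) (Fin 4) F := Matrix.of fun i j => B (e i) (e j) with hM0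
  set H : Matrix (Fin 4) (Fin 4) F := Matrix.of fun i j => B (e i) (s (e j)) with hH
  have hMS : M0 * S = H := by
    ext i j
    rw [Matrix.mul_apply]
    have h1 : s (e j) = ∑ k, S k j • e k := by
      refine (e.sum_repr (s (e j))).symm.trans (Finset.sum_congr rfl fun k _ => ?_)
      rw [hS, LinearMap.toMatrix_apply]
    show ∑ k, M0 i k * S k j = B (e i) (s (e j))
    rw [h1, map_sum]
    apply Finset.sum_congr rfl
    intro k _
    rw [map_smul, smul_eq_mul, mul_comm]
    rfl
  have hHskew : ∀ i j, H i j = - H j i := by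
    intro i j
    show B (e i) (s (e j)) = - B (e j) (s (e i))
    rw [← hs, hskew]
  have hH0 : ∀ i, H i i = 0 := by
    intro i
    have h := hHskew i i
    have h' : (2 : F) * H i i = 0 := by rw [two_mul]; nth_rewrite 1 [h]; ring
    exact (mul_eq_zero.mp h').resolve_left h2
  have hM0alt := alt4_of (M := M0) (fun i j => hskew _ _) (fun i => halt _)
  have hHalt := alt4_of hHskew hH0
  have hdet : M0 0 1 * M0 2 3 - M0 0 2 * M0 1 3 + M0 0 3 * M0 1 2 ≠ 0 := by
    intro h0
    have h1 := alt4_mul (M0 0 1) (M0 0 2) (M0 0 3) (M0 1 2) (M0 1 3) (M0 2 3)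
    rw [h0, zero_smul, ← hM0alt] at h1
    -- the rows of the adjoint matrix give vectors in the radical
    have h3 : ∀ i k, (alt4 (-(M0 2 3)) (M0 1 3) (-(M0 1 2)) (-(M0 0 3)) (M0 0 2) (-(M0 0 1))) i k
        = 0 := by
      intro i k
      have h4 : (∑ k, (alt4 (-(M0 2 3)) (M0 1 3) (-(M0 1 2)) (-(M0 0 3)) (M0 0 2) (-(M0 0 1))) i k
          • e k) = 0 := by
        apply hnd
        intro y
        have h5 : ∀ j, B (∑ k, (alt4 (-(M0 2 3)) (M0 1 3) (-(M0 1 2)) (-(M0 0 3)) (M0 0 2)
            (-(M0 0 1))) i k • e k) (e j) = 0 := by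
          intro j
          have h6 := congrFun (congrFun h1 i) j
          rw [Matrix.mul_apply, Matrix.zero_apply] at h6
          rw [map_sum, LinearMap.sum_apply, ← h6]
          apply Finset.sum_congr rfl
          intro k _
          rw [map_smul, LinearMap.smul_apply, smul_eq_mul]
          rfl
        rw [← e.sum_repr y, map_sum]
        apply Finset.sum_eq_zero
        intro j _
        rw [map_smul, h5, smul_zero]
      exact (Fintype.linearIndependent_iff.mp e.linearIndependent _ h4 k)
    have h7 : ∀ i j, M0 i j = 0 := by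
      intro i j
      rw [hM0alt]
      have e01 := h3 0 1
      have e02 := h3 0 2
      have e03 := h3 0 3
      have e12 := h3 1 2
      have e13 := h3 1 3
      have e23 := h3 2 3
      simp [alt4] at e01 e02 e03 e12 e13 e23
      fin_cases i <;> fin_cases j <;> simp [alt4, e01, e02, e03, e12, e13, e23]
    have h8 : e 0 = 0 := by
      apply hnd
      intro y
      rw [← e.sum_repr y, map_sum]
      apply Finset.sum_eq_zero
      intro j _
      rw [map_smul]
      have : B (e 0) (e j) = 0 := h7 0 j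
      rw [this, smul_zero]
    exact e.ne_zero 0 h8
  rw [hM0alt, hHalt] at hMS
  obtain ⟨t, n, htn⟩ := alt4_quad hdet hMS
  refine ⟨t, n, ?_⟩
  have h9 : s * s = t • s + n • (1 : V →ₗ[F] V) := by
    apply (LinearMap.toMatrix e e).injective
    rw [LinearMap.toMatrix_mul, map_add, map_smul, map_smul, LinearMap.toMatrix_one]
    exact htn
  intro x
  have := congrArg (fun g => g x) h9
  exact this

end base

section halve

variable {F : Type*} [Field F] {V : Type*} [AddCommGroup V] [Module F V] [FiniteDimensional F V]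

/-- the eigenspace of `X` -/
theorem finrank_eigen {X Y : V →ₗ[F] V} {r a b : F} (hr : r * r = a) (ha : a ≠ 0) (hb : b ≠ 0)
    (h2 : (2 : F) ≠ 0)
    (hX : ∀ x, X (X x) = a • x) (hY : ∀ x, Y (Y x) = b • x) (hXY : ∀ x, X (Y x) = - Y (X x)) :
    Module.finrank F V = 2 * Module.finrank F (LinearMap.ker (X - r • LinearMap.id)) := by
  have hr0 : r ≠ 0 := by
    rintro rfl
    exact ha (by rw [← hr]; ring)
  set P := LinearMap.ker (X - r • LinearMap.id) with hP
  set N := LinearMap.ker (X + r • LinearMap.id) with hN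
  have hPmem : ∀ x, x ∈ P ↔ X x = r • x := by
    intro x
    rw [hP, LinearMap.mem_ker, LinearMap.sub_apply, sub_eq_zero]; rfl
  have hNmem : ∀ x, x ∈ N ↔ X x = - (r • x) := by
    intro x
    rw [hN, LinearMap.mem_ker, LinearMap.add_apply, add_eq_zero_iff_eq_neg]; rfl
  have hc : IsCompl P N := by
    constructor
    · rw [Submodule.disjoint_def]
      intro x hxP hxN
      rw [hPmem] at hxP
      rw [hNmem, hxP] at hxN
      have h1 : (2 * r) • x = 0 := by
        rw [two_mul, add_smul]
        nth_rewrite 1 [hxN]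
        rw [neg_add_cancel]
      exact (smul_eq_zero.mp h1).resolve_left (mul_ne_zero h2 hr0)
    · rw [codisjoint_iff, Submodule.eq_top_iff']
      intro x
      rw [Submodule.mem_sup]
      refine ⟨(2 * r)⁻¹ • (r • x + X x), ?_, (2 * r)⁻¹ • (r • x - X x), ?_, ?_⟩
      · rw [hPmem, map_smul, map_add, map_smul, hX, ← hr, smul_comm r]
        congr 1
        rw [smul_add, smul_smul, add_comm]
      · rw [hNmem, map_smul, map_sub, map_smul, hX, ← hr, smul_comm r, ← smul_neg]
        congr 1
        rw [smul_sub, smul_smul]; abel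
      · rw [← smul_add]
        have : r • x + X x + (r • x - X x) = (2 * r) • x := by
          rw [two_mul, add_smul]; abel
        rw [this, smul_smul, inv_mul_cancel₀ (mul_ne_zero h2 hr0), one_smul]
  have hYP : ∀ x ∈ P, Y x ∈ N := by
    intro x hx
    rw [hPmem] at hx
    rw [hNmem, hXY, hx, map_smul]
  have hYN : ∀ x ∈ N, Y x ∈ P := by
    intro x hx
    rw [hNmem] at hx
    rw [hPmem, hXY, hx, map_neg, map_smul, neg_neg]
  have he : Module.finrank F P = Module.finrank F N := by
    apply le_antisymm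
    · apply LinearMap.finrank_le_finrank_of_injective (f := (Y.restrict hYP))
      intro x y hxy
      have h1 : Y (x : V) = Y (y : V) := congrArg Subtype.val hxy
      have h3 := congrArg Y h1
      rw [hY, hY] at h3
      exact Subtype.ext (smul_right_injective V hb h3)
    · apply LinearMap.finrank_le_finrank_of_injective (f := (Y.restrict hYN))
      intro x y hxy
      have h1 : Y (x : V) = Y (y : V) := congrArg Subtype.val hxy
      have h3 := congrArg Y h1
      rw [hY, hY] at h3
      exact Subtype.ext (smul_right_injective V hb h3)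
  have := Submodule.finrank_add_eq_of_isCompl hc
  omega

/-- **Main lemma**: self adjoint elements are quadratic. -/
theorem quad_main (h2 : (2 : F) ≠ 0) (hsq : ∀ a : F, ∃ r, r * r = a) (r : ℕ) :
    ∀ (V : Type*) [AddCommGroup V] [Module F V] [FiniteDimensional F V]
      (_ : Module.finrank F V = 4 * 2 ^ r) (X Y : Fin r → V →ₗ[F] V) (a b : Fin r → F)
      (_ : ∀ j, a j ≠ 0) (_ : ∀ j, b j ≠ 0)
      (_ : ∀ j x, X j (X j x) = a j • x) (_ : ∀ j x, Y j (Y j x) = b j • x)
      (_ : ∀ j x, X j (Y j x) = - Y j (X j x))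
      (_ : ∀ i j, i ≠ j → ∀ x, X i (X j x) = X j (X i x))
      (_ : ∀ i j, i ≠ j → ∀ x, X i (Y j x) = Y j (X i x))
      (_ : ∀ i j, i ≠ j → ∀ x, Y i (Y j x) = Y j (Y i x))
      (B : V →ₗ[F] V →ₗ[F] F) (_ : ∀ x, B x x = 0) (_ : ∀ x, (∀ y, B x y = 0) → x = 0)
      (_ : ∀ j x y, B (X j x) y = B x (X j y)) (_ : ∀ j x y, B (Y j x) y = B x (Y j y))
      (s : V →ₗ[F] V) (_ : ∀ x y, B (s x) y = B x (s y))
      (_ : ∀ j x, s (X j x) = X j (s x)) (_ : ∀ j x, s (Y j x) = Y j (s x)),
      ∃ t n : F, ∀ x, s (s x) = t • s x + n • x := by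
  induction r with
  | zero =>
    intro V _ _ _ hV X Y a b ha hb hX hY hXY hXX hXY' hYY B halt hnd hBX hBY s hs hsX hsY
    exact quad_base (by simpa using hV) B halt hnd s hs h2
  | succ r ih =>
    intro V _ _ _ hV X Y a b ha hb hX hY hXY hXX hXY' hYY B halt hnd hBX hBY s hs hsX hsY
    obtain ⟨ρ, hρ⟩ := hsq (a 0)
    have hρ0 : ρ ≠ 0 := by
      rintro rfl
      exact ha 0 (by rw [← hρ]; ring)
    have hfr := finrank_eigen hρ (ha 0) (hb 0) h2 (hX 0) (hY 0) (hXY 0)
    set P := LinearMap.ker (X 0 - ρ • LinearMap.id) with hP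
    have hPmem : ∀ x, x ∈ P ↔ X 0 x = ρ • x := by
      intro x
      rw [hP, LinearMap.mem_ker, LinearMap.sub_apply, sub_eq_zero]; rfl
    have hfrP : Module.finrank F P = 4 * 2 ^ r := by
      rw [hV, pow_succ] at hfr
      omega
    have hres : ∀ T : V →ₗ[F] V, (∀ x, X 0 (T x) = T (X 0 x)) → ∀ x ∈ P, T x ∈ P := by
      intro T hT x hx
      rw [hPmem] at hx ⊢
      rw [hT, hx, map_smul]
    have hXs : ∀ j : Fin r, ∀ x ∈ P, X j.succ x ∈ P := fun j =>
      hres _ (hXX 0 j.succ (Fin.succ_ne_zero j).symm)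
    have hYs : ∀ j : Fin r, ∀ x ∈ P, Y j.succ x ∈ P := fun j =>
      hres _ (hXY' 0 j.succ (Fin.succ_ne_zero j).symm)
    have hss : ∀ x ∈ P, s x ∈ P := hres _ (fun x => (hsX 0 x).symm)
    -- decomposition
    have hdec : ∀ y : V, ∃ u ∈ P, ∃ w, X 0 w = - (ρ • w) ∧ y = u + w := by
      intro x
      refine ⟨(2 * ρ)⁻¹ • (ρ • x + X 0 x), ?_, (2 * ρ)⁻¹ • (ρ • x - X 0 x), ?_, ?_⟩
      · rw [hPmem, map_smul, map_add, map_smul, hX, ← hρ, smul_comm ρ]
        congr 1
        rw [smul_add, smul_smul, add_comm]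
      · rw [map_smul, map_sub, map_smul, hX, ← hρ, smul_comm ρ, ← smul_neg]
        congr 1
        rw [smul_sub, smul_smul]; abel
      · rw [← smul_add]
        have : ρ • x + X 0 x + (ρ • x - X 0 x) = (2 * ρ) • x := by
          rw [two_mul, add_smul]; abel
        rw [this, smul_smul, inv_mul_cancel₀ (mul_ne_zero h2 hρ0), one_smul]
    let B' : P →ₗ[F] P →ₗ[F] F := B.compl₁₂ P.subtype P.subtype
    obtain ⟨t, n, htn⟩ := ih P hfrP (fun j => (X j.succ).restrict (hXs j))
      (fun j => (Y j.succ).restrict (hYs j)) (fun j => a j.succ) (fun j => b j.succ)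
      (fun j => ha _) (fun j => hb _)
      (fun j x => Subtype.ext (hX j.succ x)) (fun j x => Subtype.ext (hY j.succ x))
      (fun j x => Subtype.ext (hXY j.succ x))
      (fun i j hij x => Subtype.ext (hXX _ _ (fun h => hij (Fin.succ_injective _ h)) x))
      (fun i j hij x => Subtype.ext (hXY' _ _ (fun h => hij (Fin.succ_injective _ h)) x))
      (fun i j hij x => Subtype.ext (hYY _ _ (fun h => hij (Fin.succ_injective _ h)) x))
      B' (fun x => halt x)
      (by
        intro x hx
        apply Subtype.ext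
        apply hnd
        intro y
        obtain ⟨u, hu, w, hw, rfl⟩ := hdec y
        have h3 : B (x : V) u = 0 := hx ⟨u, hu⟩
        have h4 : B (x : V) w = 0 := by
          have h5 := hBX 0 (x : V) w
          rw [(hPmem x).mp x.2, hw, map_smul, LinearMap.smul_apply, map_neg, map_smul] at h5
          have h6 : (2 * ρ) * B (x : V) w = 0 := by
            have : ρ * B (x : V) w = - (ρ * B (x : V) w) := h5
            linear_combination this
          exact (mul_eq_zero.mp h6).resolve_left (mul_ne_zero h2 hρ0)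
        rw [map_add, h3, h4, add_zero])
      (fun j x y => hBX j.succ x y) (fun j x y => hBY j.succ x y)
      (s.restrict hss) (fun x y => hs x y)
      (fun j x => Subtype.ext (hsX j.succ x)) (fun j x => Subtype.ext (hsY j.succ x))
    refine ⟨t, n, ?_⟩
    have hP' : ∀ x ∈ P, s (s x) = t • s x + n • x := by
      intro x hx
      exact congrArg Subtype.val (htn ⟨x, hx⟩)
    intro x
    obtain ⟨u, hu, w, hw, rfl⟩ := hdec x
    -- `w = Y w'` with `w'` in `P`
    have hYw : Y 0 w ∈ P := by
      rw [hPmem, hXY, hw, map_neg, map_smul, neg_neg]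
    have hw2 : w = (b 0)⁻¹ • Y 0 (Y 0 w) := by
      rw [hY, smul_smul, inv_mul_cancel₀ (hb 0), one_smul]
    have h7 := hP' _ hYw
    have h8 : s (s w) = t • s w + n • w := by
      have h9 : s (s (Y 0 (Y 0 w))) = t • s (Y 0 (Y 0 w)) + n • Y 0 (Y 0 w) := by
        rw [hsY, hsY, h7, map_add, map_smul, map_smul]
      rw [hY, map_smul, map_smul, smul_comm t, smul_comm n, ← smul_add] at h9
      exact smul_right_injective V (hb 0) h9
    rw [map_add, map_add, hP' u hu, h8, smul_add, smul_add]
    abel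

end halve

end Pool.Agent.MP_43d240_ag.H36
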